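import Mathlib
import Pool.Agent.Run7.h328.Wrap

set_option autoImplicit false

/-!
# MP_185d81_co : a better exponent for the (7,3) local independence condition

Every graph on `n` vertices in which every seven vertices contain an independent set of size three
has independence number at least `(n / 64) ^ (18 / 43)`; here `18 / 43 = 0.4186...` is larger than
`5 / 12 = 0.4166...`.
-/

namespace Pool.Agent.Results.MP_185d81_co.EighteenFortyThree

theorem result : ∀ n : ℕ, ∀ G : SimpleGraph (Fin n),
    (∀ s : Finset (Fin n), s.card = 7 → ∃ t : Finset (Fin n), t ⊆ s ∧ G.IsNIndepSet 3 t) →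
    ((n : ℝ) / 64) ^ ((18 : ℝ) / 43) ≤ (G.indepNum : ℝ) := by
  intro n G hG
  rcases Nat.eq_zero_or_pos n with rfl | hn
  · rw [Nat.cast_zero, zero_div, Real.zero_rpow (by norm_num)]
    positivity
  · have ha : (1 : ℝ) ≤ (G.indepNum : ℝ) := by
      have : ({⟨0, hn⟩} : Finset (Fin n)).card ≤ G.indepNum := by
        apply SimpleGraph.IsIndepSet.card_le_indepNum
        simp
      rw [Finset.card_singleton] at this
      exact_mod_cast this
    have hi : Run7.h328.IndLe G (G.indepNum : ℝ) := by
      intro S hS
      have : S.card ≤ G.indepNum := by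
        apply SimpleGraph.IsIndepSet.card_le_indepNum
        intro x hx y hy _
        exact hS x (by exact_mod_cast hx) y (by exact_mod_cast hy)
      exact_mod_cast this
    have h := Run7.h328.power_bound (G := G) hG (G.indepNum : ℝ) ha hi
    rw [Fintype.card_fin] at h
    have h0 : (0 : ℝ) ≤ (n : ℝ) / 64 := by positivity
    have h1 : ((n : ℝ) / 64) ^ 18 ≤ (G.indepNum : ℝ) ^ 43 := by
      rw [div_pow, div_le_iff₀ (by positivity), mul_comm]
      exact h
    have h2 : (((n : ℝ) / 64) ^ ((18 : ℝ) / 43)) ^ 43 ≤ (G.indepNum : ℝ) ^ 43 := by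
      rw [← Real.rpow_natCast (((n : ℝ) / 64) ^ ((18 : ℝ) / 43)) 43, ← Real.rpow_mul h0]
      have : ((18 : ℝ) / 43) * ((43 : ℕ) : ℝ) = ((18 : ℕ) : ℝ) := by norm_num
      rw [this, Real.rpow_natCast]
      exact h1
    exact le_of_pow_le_pow_left₀ (by norm_num) (by positivity) h2

end Pool.Agent.Results.MP_185d81_co.EighteenFortyThree
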